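import Pool.Agent.H5.DF.Stm

/-!
`MP_24bb3f_an`, question Q1 (answer: yes).  For every `ε > 0` there is a bounded, time-periodic,
Hermitian-valued forcing `ν` of the one-dimensional Dirac equation which is dispersive, and for which
a decay estimate of order `(r, σ)`, `r ≥ 0`, `σ > 0`, can hold only if `σ ≤ ε`.
-/

set_option autoImplicit false

namespace Pool.Agent.Results.MP_24bb3f_an.SlowDecay

open Pool.Agent.H5.DF

/-- **Arbitrarily slow dispersive decay.** -/
theorem result (ε : ℝ) (hε : 0 < ε) : ∃ (T : ℝ) (ν : ℝ → Mat), 0 < T ∧ Forcing T ν ∧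
    IsDispersive ν ∧ ∀ r σ : ℝ, 0 ≤ r → 0 < σ → DecayEstimate ν r σ → σ ≤ ε :=
  main' ε hε

end Pool.Agent.Results.MP_24bb3f_an.SlowDecay
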